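import Mathlib

set_option autoImplicit false

/-!
# Disjoint projective copies of a blocking set in `PG(2, p^3)`

Let `p` be a prime and let `F` be the field with `p ^ 3` elements. The point set
`B = {(1, x, x^p)} ∪ {(0, 1, y) : y^(p^2+p+1) = 1}` of `PG(2, F)` has a disjoint image `γ B` under
some projectivity `γ` defined over `F`. This holds for every prime `p`.

Idea. For `p = 2` take `γ (a, b, c) = (c, b, d a)` with `d ≠ 0, 1`. For odd `p` take
`γ (a, b, c) = (a + b, b, d (a + c))`. If `N (d) ≠ 1`, where `N (x) = x^(p^2+p+1)` is the norm,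
then `B` meets `γ B` only if `d = w^p (1 - w)^(p-1)` for some `w` with `N (w) = N (d)`. The map
`w ↦ w^p (1 - w)^(p-1)` sends the finite set `Z = {w : N (w) ≠ 0, 1}` to itself, and it is not
injective on `Z`, so it is not surjective either, and any `d` in `Z` outside of its image will do.
A collision: for `m` with `m^(p-1) ≠ 1`, `m^(2p-1) ≠ 1` and `N (1 - m) ≠ N (1 - m^(2p-1))` the
elements `1 - y` and `1 - m y`, where `y^p = (1 - m^(p-1)) / (1 - m^(2p-1))`, have the same image.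
-/

namespace Pool.Agent.Results.MP_837a86_co.DisjointCopy

open Polynomial
open scoped LinearAlgebra.Projectivization

/-- The point set `B` of the projective plane over `F`: the points `(1, x, x^p)` with `x` in `F` and
the points `(0, 1, y)` with `y^(p^2+p+1) = 1`. -/
def B (p : ℕ) (F : Type) [Field F] : Set (ℙ F (Fin 3 → F)) :=
  {P | ∃ (x : F) (h : ![1, x, x ^ p] ≠ (0 : Fin 3 → F)),
    P = Projectivization.mk F ![1, x, x ^ p] h} ∪
  {P | ∃ (y : F) (h : ![0, 1, y] ≠ (0 : Fin 3 → F)), y ^ (p ^ 2 + p + 1) = 1 ∧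
    P = Projectivization.mk F ![0, 1, y] h}

/-- The projectivity (defined over `F`) induced by an invertible matrix: `[v] ↦ [M v]`. -/
def projectivity {F : Type} [Field F] (M : GL (Fin 3) F) : ℙ F (Fin 3 → F) → ℙ F (Fin 3 → F) :=
  Projectivization.map (Matrix.mulVecLin (M : Matrix (Fin 3) (Fin 3) F))
    (Matrix.mulVec_injective_of_isUnit M.isUnit)

/-! ### Coordinates -/

lemma mem_B {p : ℕ} (hp : 1 ≤ p) {F : Type} [Field F] {v : Fin 3 → F} (hv : v ≠ 0)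
    (h : Projectivization.mk F v hv ∈ B p F) :
    (v 0 ≠ 0 ∧ v 2 * v 0 ^ (p - 1) = v 1 ^ p) ∨
      (v 0 = 0 ∧ v 1 ≠ 0 ∧ v 2 ^ (p ^ 2 + p + 1) = v 1 ^ (p ^ 2 + p + 1)) := by
  obtain ⟨q, rfl⟩ : ∃ q, p = q + 1 := ⟨p - 1, by omega⟩
  rcases h with ⟨x, h, hx⟩ | ⟨y, h, hy1, hy⟩
  · left
    rw [Projectivization.mk_eq_mk_iff'] at hx
    obtain ⟨a, ha⟩ := hx
    have h0 : v 0 = a := by rw [← ha]; simp
    have h1 : v 1 = a * x := by rw [← ha]; simp
    have h2 : v 2 = a * x ^ (q + 1) := by rw [← ha]; simp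
    have ha0 : a ≠ 0 := by
      rintro rfl
      apply hv
      rw [← ha, zero_smul]
    refine ⟨by rwa [h0], ?_⟩
    rw [h0, h1, h2]
    simp only [Nat.add_sub_cancel]
    ring
  · right
    rw [Projectivization.mk_eq_mk_iff'] at hy
    obtain ⟨a, ha⟩ := hy
    have h0 : v 0 = 0 := by rw [← ha]; simp
    have h1 : v 1 = a := by rw [← ha]; simp
    have h2 : v 2 = a * y := by rw [← ha]; simp
    have ha0 : a ≠ 0 := by
      rintro rfl
      apply hv
      rw [← ha, zero_smul]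
    refine ⟨h0, by rwa [h1], ?_⟩
    rw [h1, h2, mul_pow, hy1, mul_one]

/-- A criterion for `B ∩ γ B = ∅`. -/
lemma disjoint_criterion {p : ℕ} (hp : 1 ≤ p) {F : Type} [Field F] (M : GL (Fin 3) F)
    (h1 : ∀ x : F, ¬ (
      ((M : Matrix (Fin 3) (Fin 3) F).mulVec ![1, x, x ^ p] 0 ≠ 0 ∧
        (M : Matrix (Fin 3) (Fin 3) F).mulVec ![1, x, x ^ p] 2 *
          (M : Matrix (Fin 3) (Fin 3) F).mulVec ![1, x, x ^ p] 0 ^ (p - 1) =
          (M : Matrix (Fin 3) (Fin 3) F).mulVec ![1, x, x ^ p] 1 ^ p) ∨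
      ((M : Matrix (Fin 3) (Fin 3) F).mulVec ![1, x, x ^ p] 0 = 0 ∧
        (M : Matrix (Fin 3) (Fin 3) F).mulVec ![1, x, x ^ p] 1 ≠ 0 ∧
        (M : Matrix (Fin 3) (Fin 3) F).mulVec ![1, x, x ^ p] 2 ^ (p ^ 2 + p + 1) =
          (M : Matrix (Fin 3) (Fin 3) F).mulVec ![1, x, x ^ p] 1 ^ (p ^ 2 + p + 1))))
    (h2 : ∀ y : F, y ^ (p ^ 2 + p + 1) = 1 → ¬ (
      ((M : Matrix (Fin 3) (Fin 3) F).mulVec ![0, 1, y] 0 ≠ 0 ∧
        (M : Matrix (Fin 3) (Fin 3) F).mulVec ![0, 1, y] 2 *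
          (M : Matrix (Fin 3) (Fin 3) F).mulVec ![0, 1, y] 0 ^ (p - 1) =
          (M : Matrix (Fin 3) (Fin 3) F).mulVec ![0, 1, y] 1 ^ p) ∨
      ((M : Matrix (Fin 3) (Fin 3) F).mulVec ![0, 1, y] 0 = 0 ∧
        (M : Matrix (Fin 3) (Fin 3) F).mulVec ![0, 1, y] 1 ≠ 0 ∧
        (M : Matrix (Fin 3) (Fin 3) F).mulVec ![0, 1, y] 2 ^ (p ^ 2 + p + 1) =
          (M : Matrix (Fin 3) (Fin 3) F).mulVec ![0, 1, y] 1 ^ (p ^ 2 + p + 1)))) :
    B p F ∩ projectivity M '' B p F = ∅ := by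
  rw [Set.eq_empty_iff_forall_notMem]
  rintro P ⟨hP, Q, hQ, rfl⟩
  rcases hQ with ⟨x, h, rfl⟩ | ⟨y, h, hy, rfl⟩
  · exact h1 x (mem_B hp _ hP)
  · exact h2 y hy (mem_B hp _ hP)

/-! ### The norm -/

section field

variable {p : ℕ} [hp : Fact p.Prime] {F : Type} [Field F] [Fintype F]
  (hF : Fintype.card F = p ^ 3)

include hF

omit hp in
lemma pow_card' (x : F) : x ^ p ^ 3 = x := by
  rw [← hF]; exact FiniteField.pow_card x

omit hp in
lemma norm_pow_p (x : F) : (x ^ p) ^ (p ^ 2 + p + 1) = x ^ (p ^ 2 + p + 1) := by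
  have h : p * (p ^ 2 + p + 1) = p ^ 3 + (p ^ 2 + p) := by ring
  rw [← pow_mul, h, pow_add, pow_card' hF, pow_succ x (p ^ 2 + p), mul_comm]

lemma norm_pow_sub_one {x : F} (hx : x ≠ 0) : (x ^ (p - 1)) ^ (p ^ 2 + p + 1) = 1 := by
  obtain ⟨q, hq⟩ : ∃ q, p = q + 1 := ⟨p - 1, by have := hp.out.one_lt; omega⟩
  have h : (p - 1) * (p ^ 2 + p + 1) = p ^ 3 - 1 := by
    rw [hq]
    simp only [Nat.add_sub_cancel]
    have : (q + 1) ^ 3 = q * ((q + 1) ^ 2 + (q + 1) + 1) + 1 := by ring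
    omega
  rw [← pow_mul, h, ← hF]
  exact FiniteField.pow_card_sub_one_eq_one x hx

/-- The case of odd `p`, given a suitable `d`. -/
lemma of_missing (d : F) (hd0 : d ≠ 0) (hd1 : d ^ (p ^ 2 + p + 1) ≠ 1)
    (hd : ∀ w : F, w ^ (p ^ 2 + p + 1) ≠ 1 → w ≠ 0 → w ^ p * (1 - w) ^ (p - 1) ≠ d) :
    ∃ M : GL (Fin 3) F, B p F ∩ projectivity M '' B p F = ∅ := by
  have hchar : CharP F p := charP_of_card_eq_prime_pow hF
  have hdet : IsUnit (!![1, 1, 0; 0, 1, 0; d, 0, d] : Matrix (Fin 3) (Fin 3) F).det := by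
    rw [Matrix.det_fin_three]
    simpa using hd0
  obtain ⟨q, hq⟩ : ∃ q, p = q + 1 := ⟨p - 1, by have := hp.out.one_lt; omega⟩
  refine ⟨Matrix.GeneralLinearGroup.mk'' !![1, 1, 0; 0, 1, 0; d, 0, d] hdet,
    disjoint_criterion hp.out.one_le _ ?_ ?_⟩
  · intro x
    have e0 : (!![1, 1, 0; 0, 1, 0; d, 0, d] : Matrix (Fin 3) (Fin 3) F).mulVec ![1, x, x ^ p] 0
        = 1 + x := by
      simp [Matrix.mulVec, dotProduct, Fin.sum_univ_three]
    have e1 : (!![1, 1, 0; 0, 1, 0; d, 0, d] : Matrix (Fin 3) (Fin 3) F).mulVec ![1, x, x ^ p] 1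
        = x := by
      simp [Matrix.mulVec, dotProduct, Fin.sum_univ_three]
    have e2 : (!![1, 1, 0; 0, 1, 0; d, 0, d] : Matrix (Fin 3) (Fin 3) F).mulVec ![1, x, x ^ p] 2
        = d * (1 + x) ^ p := by
      simp [Matrix.mulVec, dotProduct, Fin.sum_univ_three, add_pow_char, mul_add]
    rintro (⟨ha, hb⟩ | ⟨ha, hb, hc⟩)
    · change (!![1, 1, 0; 0, 1, 0; d, 0, d] : Matrix (Fin 3) (Fin 3) F).mulVec ![1, x, x ^ p] 0
        ≠ 0 at ha
      change (!![1, 1, 0; 0, 1, 0; d, 0, d] : Matrix (Fin 3) (Fin 3) F).mulVec ![1, x, x ^ p] 2 *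
        (!![1, 1, 0; 0, 1, 0; d, 0, d] : Matrix (Fin 3) (Fin 3) F).mulVec ![1, x, x ^ p] 0 ^ (p - 1)
        = (!![1, 1, 0; 0, 1, 0; d, 0, d] : Matrix (Fin 3) (Fin 3) F).mulVec ![1, x, x ^ p] 1 ^ p
        at hb
      rw [e0] at ha
      rw [e0, e1, e2] at hb
      -- `w = x / (1 + x)`
      have hx0 : x ≠ 0 := by
        rintro rfl
        have h3 : (0 : F) ^ p = 0 := zero_pow hp.out.ne_zero
        rw [h3] at hb
        simp [hd0] at hb
      have hw : 1 - x / (1 + x) = 1 / (1 + x) := by field_simp; ring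
      have key : (x / (1 + x)) ^ p * (1 - x / (1 + x)) ^ (p - 1) = d := by
        rw [hw, div_pow, ← hb, mul_assoc, mul_div_assoc, mul_div_cancel_left₀ _ (pow_ne_zero _ ha),
          mul_assoc, ← mul_pow, mul_one_div_cancel ha, one_pow, mul_one]
      have hN : (x / (1 + x)) ^ (p ^ 2 + p + 1) = d ^ (p ^ 2 + p + 1) := by
        have h4 : (1 - x / (1 + x)) ≠ 0 := by rw [hw]; exact one_div_ne_zero ha
        rw [← key, mul_pow, norm_pow_p hF, norm_pow_sub_one hF h4, mul_one]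
      exact hd (x / (1 + x)) (by rw [hN]; exact hd1) (div_ne_zero hx0 ha) key
    · change (!![1, 1, 0; 0, 1, 0; d, 0, d] : Matrix (Fin 3) (Fin 3) F).mulVec ![1, x, x ^ p] 0
        = 0 at ha
      change (!![1, 1, 0; 0, 1, 0; d, 0, d] : Matrix (Fin 3) (Fin 3) F).mulVec ![1, x, x ^ p] 1
        ≠ 0 at hb
      change (!![1, 1, 0; 0, 1, 0; d, 0, d] : Matrix (Fin 3) (Fin 3) F).mulVec ![1, x, x ^ p] 2
        ^ (p ^ 2 + p + 1)
        = (!![1, 1, 0; 0, 1, 0; d, 0, d] : Matrix (Fin 3) (Fin 3) F).mulVec ![1, x, x ^ p] 1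
        ^ (p ^ 2 + p + 1) at hc
      rw [e0] at ha
      rw [e1] at hb
      rw [e1, e2, ha] at hc
      have h3 : (0 : F) ^ p = 0 := zero_pow hp.out.ne_zero
      rw [h3, mul_zero, zero_pow (by positivity)] at hc
      exact pow_ne_zero _ hb hc.symm
  · intro y hy
    have e0 : (!![1, 1, 0; 0, 1, 0; d, 0, d] : Matrix (Fin 3) (Fin 3) F).mulVec ![0, 1, y] 0
        = 1 := by
      simp [Matrix.mulVec, dotProduct, Fin.sum_univ_three]
    have e1 : (!![1, 1, 0; 0, 1, 0; d, 0, d] : Matrix (Fin 3) (Fin 3) F).mulVec ![0, 1, y] 1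
        = 1 := by
      simp [Matrix.mulVec, dotProduct, Fin.sum_univ_three]
    have e2 : (!![1, 1, 0; 0, 1, 0; d, 0, d] : Matrix (Fin 3) (Fin 3) F).mulVec ![0, 1, y] 2
        = d * y := by
      simp [Matrix.mulVec, dotProduct, Fin.sum_univ_three]
    rintro (⟨ha, hb⟩ | ⟨ha, hb, hc⟩)
    · change (!![1, 1, 0; 0, 1, 0; d, 0, d] : Matrix (Fin 3) (Fin 3) F).mulVec ![0, 1, y] 2 *
        (!![1, 1, 0; 0, 1, 0; d, 0, d] : Matrix (Fin 3) (Fin 3) F).mulVec ![0, 1, y] 0 ^ (p - 1)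
        = (!![1, 1, 0; 0, 1, 0; d, 0, d] : Matrix (Fin 3) (Fin 3) F).mulVec ![0, 1, y] 1 ^ p
        at hb
      rw [e0, e1, e2, one_pow, one_pow, mul_one] at hb
      have h5 := congrArg (fun z => z ^ (p ^ 2 + p + 1)) hb
      simp only [mul_pow, hy, mul_one, one_pow] at h5
      exact hd1 h5
    · change (!![1, 1, 0; 0, 1, 0; d, 0, d] : Matrix (Fin 3) (Fin 3) F).mulVec ![0, 1, y] 0
        = 0 at ha
      rw [e0] at ha
      exact one_ne_zero ha

/-- A collision of `w ↦ w^p (1 - w)^(p-1)` gives a missing value. -/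
lemma exists_missing (w w' : F) (hne : w ≠ w') (hw : w ^ (p ^ 2 + p + 1) ≠ 1) (hw0 : w ≠ 0)
    (hw' : w' ^ (p ^ 2 + p + 1) ≠ 1) (hw0' : w' ≠ 0)
    (he : w ^ p * (1 - w) ^ (p - 1) = w' ^ p * (1 - w') ^ (p - 1)) :
    ∃ d : F, d ≠ 0 ∧ d ^ (p ^ 2 + p + 1) ≠ 1 ∧
      ∀ w : F, w ^ (p ^ 2 + p + 1) ≠ 1 → w ≠ 0 → w ^ p * (1 - w) ^ (p - 1) ≠ d := by
  have hsub : ∀ w : F, w ^ (p ^ 2 + p + 1) ≠ 1 → 1 - w ≠ 0 := by
    intro w hw h
    apply hw
    rw [← sub_eq_zero.mp h, one_pow]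
  let ψ : {w : F // w ^ (p ^ 2 + p + 1) ≠ 1 ∧ w ≠ 0} → {w : F // w ^ (p ^ 2 + p + 1) ≠ 1 ∧ w ≠ 0} :=
    fun w => ⟨w.1 ^ p * (1 - w.1) ^ (p - 1), by
      rw [mul_pow, norm_pow_p hF, norm_pow_sub_one hF (hsub _ w.2.1), mul_one]
      exact w.2.1,
      mul_ne_zero (pow_ne_zero _ w.2.2) (pow_ne_zero _ (hsub _ w.2.1))⟩
  have hninj : ¬ Function.Injective ψ := by
    intro h
    have := @h ⟨w, hw, hw0⟩ ⟨w', hw', hw0'⟩ (Subtype.ext he)
    exact hne (Subtype.ext_iff.mp this)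
  have hnsurj : ¬ Function.Surjective ψ := by
    rwa [← Finite.injective_iff_surjective]
  rw [Function.Surjective] at hnsurj
  push Not at hnsurj
  obtain ⟨⟨d, hd1, hd0⟩, hd⟩ := hnsurj
  refine ⟨d, hd0, hd1, ?_⟩
  intro w hw hw0 h
  exact hd ⟨w, hw, hw0⟩ (Subtype.ext h)

/-- A suitable `m` gives a collision. -/
lemma exists_missing_of_m (m : F) (hm1 : m ^ (2 * p - 1) ≠ 1)
    (hm2 : (m - m ^ (2 * p)) ^ (p ^ 2 + p + 1) ≠ (m - m ^ 2) ^ (p ^ 2 + p + 1)) :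
    ∃ d : F, d ≠ 0 ∧ d ^ (p ^ 2 + p + 1) ≠ 1 ∧
      ∀ w : F, w ^ (p ^ 2 + p + 1) ≠ 1 → w ≠ 0 → w ^ p * (1 - w) ^ (p - 1) ≠ d := by
  have hchar : CharP F p := charP_of_card_eq_prime_pow hF
  obtain ⟨q, hq⟩ : ∃ q, p = q + 1 := ⟨p - 1, by have := hp.out.one_lt; omega⟩
  have hm0 : m ≠ 0 := by
    rintro rfl
    apply hm2
    have h1 : (0 : F) ^ (2 * p) = 0 := zero_pow (by have := hp.out.pos; omega)
    rw [h1]
    simp
  -- `m` is not in the prime field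
  have hmp : m ^ (p - 1) ≠ 1 := by
    intro h
    apply hm2
    have h1 : m ^ (2 * p) = m ^ 2 := by
      have h2 : 2 * p = (p - 1) * 2 + 2 := by omega
      rw [h2, pow_add, pow_mul, h, one_pow, one_mul]
    rw [h1]
  have hm_ne : m ≠ 1 := by
    rintro rfl
    exact hmp (one_pow _)
  have hA : (1 : F) - m ^ (p - 1) ≠ 0 := fun h => hmp (sub_eq_zero.mp h).symm
  have hB : (1 : F) - m ^ (2 * p - 1) ≠ 0 := fun h => hm1 (sub_eq_zero.mp h).symm
  have hC : (1 : F) - m ≠ 0 := fun h => hm_ne (sub_eq_zero.mp h).symm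
  -- a `p`-th root
  obtain ⟨y, hy⟩ : ∃ y : F, y ^ p = (1 - m ^ (p - 1)) / (1 - m ^ (2 * p - 1)) := by
    refine ⟨((1 - m ^ (p - 1)) / (1 - m ^ (2 * p - 1))) ^ p ^ 2, ?_⟩
    rw [← pow_mul, ← pow_succ]
    exact pow_card' hF _
  have hy0 : y ≠ 0 := by
    rintro rfl
    rw [zero_pow hp.out.ne_zero] at hy
    exact (div_ne_zero hA hB) hy.symm
  have hmm : m ^ (2 * p - 1) = m ^ p * m ^ (p - 1) := by
    rw [← pow_add]; congr 1; omega
  have hw1 : (1 - y) ^ p = m ^ (p - 1) * (1 - m ^ p) / (1 - m ^ (2 * p - 1)) := by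
    rw [sub_pow_char, one_pow, hy, eq_div_iff hB, sub_mul, one_mul, div_mul_cancel₀ _ hB, hmm]
    ring
  have hw2 : (1 - m * y) ^ p = (1 - m ^ p) / (1 - m ^ (2 * p - 1)) := by
    rw [sub_pow_char, one_pow, mul_pow, hy, eq_div_iff hB, sub_mul, one_mul, mul_assoc,
      div_mul_cancel₀ _ hB, hmm]
    ring
  have hDp : (1 : F) - m ^ p ≠ 0 := by
    have : (1 : F) - m ^ p = (1 - m) ^ p := by rw [sub_pow_char, one_pow]
    rw [this]
    exact pow_ne_zero _ hC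
  -- norms
  have hNm : (m ^ (2 * p - 1)) ^ (p ^ 2 + p + 1) = m ^ (p ^ 2 + p + 1) := by
    rw [hmm, mul_pow, norm_pow_p hF, norm_pow_sub_one hF hm0, mul_one]
  have hNe : (1 - m) ^ (p ^ 2 + p + 1) ≠ (1 - m ^ (2 * p - 1)) ^ (p ^ 2 + p + 1) := by
    intro h
    apply hm2
    have h1 : m - m ^ (2 * p) = m * (1 - m ^ (2 * p - 1)) := by
      have h2 : 2 * p = (2 * p - 1) + 1 := by have := hp.out.pos; omega
      rw [mul_sub, mul_one]
      congr 1
      conv_lhs => rw [h2, pow_succ]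
      ring
    have h3 : m - m ^ 2 = m * (1 - m) := by ring
    rw [h1, h3, mul_pow, mul_pow, h]
  have hN2 : (1 - m * y) ^ (p ^ 2 + p + 1) =
      (1 - m) ^ (p ^ 2 + p + 1) / (1 - m ^ (2 * p - 1)) ^ (p ^ 2 + p + 1) := by
    rw [← norm_pow_p hF, hw2, div_pow]
    congr 1
    have : (1 : F) - m ^ p = (1 - m) ^ p := by rw [sub_pow_char, one_pow]
    rw [this, norm_pow_p hF]
  have hN1 : (1 - y) ^ (p ^ 2 + p + 1) =
      (1 - m) ^ (p ^ 2 + p + 1) / (1 - m ^ (2 * p - 1)) ^ (p ^ 2 + p + 1) := by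
    rw [← norm_pow_p hF, hw1, div_pow, mul_pow, norm_pow_sub_one hF hm0, one_mul]
    congr 1
    have : (1 : F) - m ^ p = (1 - m) ^ p := by rw [sub_pow_char, one_pow]
    rw [this, norm_pow_p hF]
  have hNB : (1 - m ^ (2 * p - 1)) ^ (p ^ 2 + p + 1) ≠ 0 := pow_ne_zero _ hB
  have hdiv : (1 - m) ^ (p ^ 2 + p + 1) / (1 - m ^ (2 * p - 1)) ^ (p ^ 2 + p + 1) ≠ 1 := by
    rw [Ne, div_eq_one_iff_eq hNB]
    exact hNe
  have hw10 : 1 - y ≠ 0 := by
    intro h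
    rw [h, zero_pow hp.out.ne_zero] at hw1
    exact (div_ne_zero (mul_ne_zero (pow_ne_zero _ hm0) hDp) hB) hw1.symm
  have hw20 : 1 - m * y ≠ 0 := by
    intro h
    rw [h, zero_pow hp.out.ne_zero] at hw2
    exact (div_ne_zero hDp hB) hw2.symm
  refine exists_missing hF (1 - y) (1 - m * y) ?_ (by rw [hN1]; exact hdiv) hw10
    (by rw [hN2]; exact hdiv) hw20 ?_
  · intro h
    have h1 : y = m * y := by linear_combination -h
    have h2 : (1 - m) * y = 0 := by linear_combination h1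
    rcases mul_eq_zero.mp h2 with h3 | h3
    · exact hC h3
    · exact hy0 h3
  · rw [hw1, hw2]
    have h1 : (1 : F) - (1 - y) = y := by ring
    have h2 : (1 : F) - (1 - m * y) = m * y := by ring
    rw [h1, h2, mul_pow]
    ring

/-- A suitable `m` exists if `p ≥ 5`. -/
lemma exists_m_of_five_le (h5 : 5 ≤ p) : ∃ m : F, m ^ (2 * p - 1) ≠ 1 ∧
    (m - m ^ (2 * p)) ^ (p ^ 2 + p + 1) ≠ (m - m ^ 2) ^ (p ^ 2 + p + 1) := by
  have hchar : CharP F p := charP_of_card_eq_prime_pow hF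
  have key : ∀ a b : ℕ, a < b → ((X : F[X]) ^ a - X ^ b).natDegree = b := by
    intro a b hab
    rw [natDegree_sub_eq_right_of_natDegree_lt]
    · simp
    · simpa using hab
  have key' : ∀ a b : ℕ, a < b → ((X : F[X]) ^ b - X ^ a).natDegree = b := by
    intro a b hab
    rw [natDegree_sub_eq_left_of_natDegree_lt]
    · simp
    · simpa using hab
  set A : F[X] := (X ^ 1 - X ^ (2 * p)) * (X ^ p - X ^ (2 * p ^ 2)) * (X ^ (p ^ 2) - X ^ 2) with hA
  set A' : F[X] := (X ^ 1 - X ^ 2) * (X ^ p - X ^ (2 * p)) * (X ^ (p ^ 2) - X ^ (2 * p ^ 2)) with hA'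
  have hpp : p < 2 * p ^ 2 := by nlinarith
  have hpp' : 2 < p ^ 2 := by nlinarith
  have hpp'' : p ^ 2 < 2 * p ^ 2 := by nlinarith
  have hne : ∀ {f : F[X]} {n : ℕ}, f.natDegree = n → 0 < n → f ≠ 0 := by
    rintro f n h h0 rfl
    rw [natDegree_zero] at h
    omega
  have d1 := key 1 (2 * p) (by omega)
  have d2 := key p (2 * p ^ 2) hpp
  have d3 := key' 2 (p ^ 2) hpp'
  have d4 := key 1 2 (by omega)
  have d5 := key p (2 * p) (by omega)
  have d6 := key (p ^ 2) (2 * p ^ 2) hpp''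
  have n1 := hne d1 (by omega)
  have n2 := hne d2 (by positivity)
  have n3 := hne d3 (by positivity)
  have n4 := hne d4 (by omega)
  have n5 := hne d5 (by omega)
  have n6 := hne d6 (by positivity)
  have dA : A.natDegree = 2 * p + 2 * p ^ 2 + p ^ 2 := by
    rw [hA, natDegree_mul (mul_ne_zero n1 n2) n3, natDegree_mul n1 n2, d1, d2, d3]
  have dA' : A'.natDegree = 2 + 2 * p + 2 * p ^ 2 := by
    rw [hA', natDegree_mul (mul_ne_zero n4 n5) n6, natDegree_mul n4 n5, d4, d5, d6]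
  have dG : (A - A').natDegree = 2 * p + 2 * p ^ 2 + p ^ 2 := by
    rw [natDegree_sub_eq_left_of_natDegree_lt, dA]
    rw [dA, dA']
    omega
  have nG : A - A' ≠ 0 := hne dG (by positivity)
  have dQ : ((A - A') * (X ^ 1 - X ^ (2 * p))).natDegree < Cardinal.mk F := by
    rw [natDegree_mul nG n1, dG, d1, Cardinal.mk_fintype, hF]
    norm_cast
    nlinarith [Nat.mul_le_mul_right (p ^ 2) h5, Nat.mul_le_mul_right p h5]
  obtain ⟨m, hm⟩ := exists_eval_ne_zero_of_natDegree_lt_card _ (mul_ne_zero nG n1) dQ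
  rw [eval_mul] at hm
  have hm1 := left_ne_zero_of_mul hm
  have hm2 := right_ne_zero_of_mul hm
  have hexp : ∀ z : F, z ^ (p ^ 2 + p + 1) = z * z ^ p * z ^ (p ^ 2) := by
    intro z; ring
  have hp3 : ∀ z : F, z ^ (p * p ^ 2) = z := by
    intro z
    have : p * p ^ 2 = p ^ 3 := by ring
    rw [this]; exact pow_card' hF z
  have frob2 : ∀ z w : F, (z - w) ^ (p ^ 2) = z ^ (p ^ 2) - w ^ (p ^ 2) := by
    intro z w
    exact sub_pow_char_pow z w 2
  refine ⟨m, ?_, ?_⟩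
  · intro h
    apply hm2
    have h3 : m ^ (2 * p) = m := by
      have h2 : 2 * p = (2 * p - 1) + 1 := by omega
      rw [h2, pow_succ, h, one_mul]
    rw [eval_sub, eval_pow, eval_pow, eval_X, h3, pow_one, sub_self]
  · intro h
    apply hm1
    rw [eval_sub, sub_eq_zero]
    have e1 : A.eval m = (m - m ^ (2 * p)) ^ (p ^ 2 + p + 1) := by
      rw [hexp, sub_pow_char, frob2, hA]
      simp only [eval_mul, eval_sub, eval_pow, eval_X, pow_one]
      have h1 : (m ^ (2 * p)) ^ p = m ^ (2 * p ^ 2) := by rw [← pow_mul]; congr 1; ring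
      have h2 : (m ^ (2 * p)) ^ (p ^ 2) = m ^ 2 := by
        rw [← pow_mul]
        have : 2 * p * p ^ 2 = (p * p ^ 2) * 2 := by ring
        rw [this, pow_mul, hp3]
      rw [h1, h2]
    have e2 : A'.eval m = (m - m ^ 2) ^ (p ^ 2 + p + 1) := by
      rw [hexp, sub_pow_char, frob2, hA']
      simp only [eval_mul, eval_sub, eval_pow, eval_X, pow_one]
      have h1 : (m ^ 2) ^ p = m ^ (2 * p) := by rw [← pow_mul]
      have h2 : (m ^ 2) ^ (p ^ 2) = m ^ (2 * p ^ 2) := by rw [← pow_mul]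
      rw [h1, h2]
    rw [e1, e2, h]

end field

/-- A suitable `m` exists if `p = 3`. -/
lemma exists_m_three {F : Type} [Field F] [Fintype F] (hF : Fintype.card F = 3 ^ 3) :
    ∃ m : F, m ^ (2 * 3 - 1) ≠ 1 ∧
    (m - m ^ (2 * 3)) ^ (3 ^ 2 + 3 + 1) ≠ (m - m ^ 2) ^ (3 ^ 2 + 3 + 1) := by
  have : Fact (Nat.Prime 3) := ⟨by norm_num⟩
  have hchar : CharP F 3 := charP_of_card_eq_prime_pow hF
  set f : F[X] := -(X ^ 6 + X ^ 18 + X ^ 2) + (X ^ 21 + X ^ 11 + X ^ 7) + (X ^ 14 + X ^ 16 + X ^ 22)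
    - (X ^ 17 + X ^ 25 + X ^ 23) with hf
  have df : f.natDegree = 25 := by
    rw [hf]
    compute_degree!
  have nf : f ≠ 0 := by
    intro h
    rw [h, natDegree_zero] at df
    omega
  have dQ : f.natDegree < Cardinal.mk F := by
    rw [df, Cardinal.mk_fintype, hF]
    norm_cast
  obtain ⟨m, hm⟩ := exists_eval_ne_zero_of_natDegree_lt_card _ nf dQ
  have hp3 : m ^ 27 = m := by
    have := pow_card' (p := 3) hF m
    simpa using this
  have hm' : (m - m ^ 6) ^ 13 ≠ (m - m ^ 2) ^ 13 := by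
    intro h
    apply hm
    have frob : ∀ z w : F, (z - w) ^ 3 = z ^ 3 - w ^ 3 := fun z w => sub_pow_char z w
    have frob2 : ∀ z w : F, (z - w) ^ 9 = z ^ 9 - w ^ 9 := by
      intro z w
      have := sub_pow_char_pow (p := 3) z w 2
      simpa using this
    have e1 : (m - m ^ 6) ^ 13 = (m - m ^ 6) * (m ^ 3 - m ^ 18) * (m ^ 9 - m ^ 2) := by
      have h1 : (m - m ^ 6) ^ 13 = (m - m ^ 6) * (m - m ^ 6) ^ 3 * (m - m ^ 6) ^ 9 := by ring
      have h2 : (m ^ 6) ^ 9 = m ^ 2 := by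
        have : (m ^ 6) ^ 9 = (m ^ 27) ^ 2 := by ring
        rw [this, hp3]
      rw [h1, frob, frob2, h2]
      ring
    have e2 : (m - m ^ 2) ^ 13 = (m - m ^ 2) * (m ^ 3 - m ^ 6) * (m ^ 9 - m ^ 18) := by
      have h1 : (m - m ^ 2) ^ 13 = (m - m ^ 2) * (m - m ^ 2) ^ 3 * (m - m ^ 2) ^ 9 := by ring
      rw [h1, frob, frob2]
      ring
    rw [e1, e2] at h
    rw [hf]
    simp only [eval_sub, eval_add, eval_neg, eval_pow, eval_X]
    linear_combination h - (m ^ 6 - m) * hp3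
  refine ⟨m, ?_, ?_⟩
  · intro h
    have h5 : m ^ 5 = 1 := by simpa using h
    have hm0 : m ≠ 0 := by
      rintro rfl
      simp at h5
    have h26 : m ^ 26 = 1 := by
      have : m ^ 26 * m = 1 * m := by rw [one_mul, ← pow_succ]; exact hp3
      exact mul_right_cancel₀ hm0 this
    have h1 : m = 1 := by
      have : m ^ 26 = (m ^ 5) ^ 5 * m := by ring
      rw [h26, h5, one_pow, one_mul] at this
      exact this.symm
    apply hm'
    rw [h1]
    simp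
  · simpa using hm'

/-- The case `p = 2`. -/
lemma case_two {F : Type} [Field F] [Fintype F] (hF : Fintype.card F = 2 ^ 3) :
    ∃ M : GL (Fin 3) F, B 2 F ∩ projectivity M '' B 2 F = ∅ := by
  obtain ⟨d, hd0, hd1⟩ : ∃ d : F, d ≠ 0 ∧ d ≠ 1 := by
    have h2 : 2 < Fintype.card F := by rw [hF]; norm_num
    rw [Fintype.two_lt_card_iff] at h2
    obtain ⟨a, b, c, hab, hac, hbc⟩ := h2
    by_contra hcon
    push Not at hcon
    rcases eq_or_ne a 0 with ha | ha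
    · have hb := hcon b (by rintro rfl; exact hab ha)
      have hc := hcon c (by rintro rfl; exact hac ha)
      exact hbc (hb.trans hc.symm)
    · have ha1 := hcon a ha
      rcases eq_or_ne b 0 with hb | hb
      · have hc := hcon c (by rintro rfl; exact hbc hb)
        exact hac (ha1.trans hc.symm)
      · exact hab (ha1.trans (hcon b hb).symm)
  have hdet : IsUnit (!![0, 0, 1; 0, 1, 0; d, 0, 0] : Matrix (Fin 3) (Fin 3) F).det := by
    rw [Matrix.det_fin_three]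
    simpa using hd0
  refine ⟨Matrix.GeneralLinearGroup.mk'' !![0, 0, 1; 0, 1, 0; d, 0, 0] hdet,
    disjoint_criterion (by norm_num) _ ?_ ?_⟩
  · intro x
    have e0 : (!![0, 0, 1; 0, 1, 0; d, 0, 0] : Matrix (Fin 3) (Fin 3) F).mulVec ![1, x, x ^ 2] 0
        = x ^ 2 := by
      simp [Matrix.mulVec, dotProduct, Fin.sum_univ_three]
    have e1 : (!![0, 0, 1; 0, 1, 0; d, 0, 0] : Matrix (Fin 3) (Fin 3) F).mulVec ![1, x, x ^ 2] 1
        = x := by
      simp [Matrix.mulVec, dotProduct, Fin.sum_univ_three]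
    have e2 : (!![0, 0, 1; 0, 1, 0; d, 0, 0] : Matrix (Fin 3) (Fin 3) F).mulVec ![1, x, x ^ 2] 2
        = d := by
      simp [Matrix.mulVec, dotProduct, Fin.sum_univ_three]
    intro h
    change ((!![0, 0, 1; 0, 1, 0; d, 0, 0] : Matrix (Fin 3) (Fin 3) F).mulVec ![1, x, x ^ 2] 0 ≠ 0
      ∧ (!![0, 0, 1; 0, 1, 0; d, 0, 0] : Matrix (Fin 3) (Fin 3) F).mulVec ![1, x, x ^ 2] 2 *
        (!![0, 0, 1; 0, 1, 0; d, 0, 0] : Matrix (Fin 3) (Fin 3) F).mulVec ![1, x, x ^ 2] 0 ^ (2 - 1)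
        = (!![0, 0, 1; 0, 1, 0; d, 0, 0] : Matrix (Fin 3) (Fin 3) F).mulVec ![1, x, x ^ 2] 1 ^ 2) ∨
      ((!![0, 0, 1; 0, 1, 0; d, 0, 0] : Matrix (Fin 3) (Fin 3) F).mulVec ![1, x, x ^ 2] 0 = 0
      ∧ (!![0, 0, 1; 0, 1, 0; d, 0, 0] : Matrix (Fin 3) (Fin 3) F).mulVec ![1, x, x ^ 2] 1 ≠ 0 ∧ _)
      at h
    rw [e0, e1, e2] at h
    rcases h with ⟨ha, hb⟩ | ⟨ha, hb, -⟩
    · have h1 : (d - 1) * x ^ 2 = 0 := by linear_combination hb
      rcases mul_eq_zero.mp h1 with h2 | h2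
      · exact hd1 (sub_eq_zero.mp h2)
      · exact ha h2
    · exact hb (pow_eq_zero_iff (by norm_num) |>.mp ha)
  · intro y hy
    have hy0 : y ≠ 0 := by
      rintro rfl
      simp at hy
    have e0 : (!![0, 0, 1; 0, 1, 0; d, 0, 0] : Matrix (Fin 3) (Fin 3) F).mulVec ![0, 1, y] 0
        = y := by
      simp [Matrix.mulVec, dotProduct, Fin.sum_univ_three]
    have e1 : (!![0, 0, 1; 0, 1, 0; d, 0, 0] : Matrix (Fin 3) (Fin 3) F).mulVec ![0, 1, y] 1
        = 1 := by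
      simp [Matrix.mulVec, dotProduct, Fin.sum_univ_three]
    have e2 : (!![0, 0, 1; 0, 1, 0; d, 0, 0] : Matrix (Fin 3) (Fin 3) F).mulVec ![0, 1, y] 2
        = 0 := by
      simp [Matrix.mulVec, dotProduct, Fin.sum_univ_three]
    intro h
    change ((!![0, 0, 1; 0, 1, 0; d, 0, 0] : Matrix (Fin 3) (Fin 3) F).mulVec ![0, 1, y] 0 ≠ 0
      ∧ (!![0, 0, 1; 0, 1, 0; d, 0, 0] : Matrix (Fin 3) (Fin 3) F).mulVec ![0, 1, y] 2 *
        (!![0, 0, 1; 0, 1, 0; d, 0, 0] : Matrix (Fin 3) (Fin 3) F).mulVec ![0, 1, y] 0 ^ (2 - 1)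
        = (!![0, 0, 1; 0, 1, 0; d, 0, 0] : Matrix (Fin 3) (Fin 3) F).mulVec ![0, 1, y] 1 ^ 2) ∨
      ((!![0, 0, 1; 0, 1, 0; d, 0, 0] : Matrix (Fin 3) (Fin 3) F).mulVec ![0, 1, y] 0 = 0
      ∧ _) at h
    rw [e0, e1, e2] at h
    rcases h with ⟨ha, hb⟩ | ⟨ha, -⟩
    · simp at hb
    · exact hy0 ha

/-- **Theorem.** For every prime `p` and every field `F` with `p ^ 3` elements there is a
projectivity `γ` of `PG(2, F)`, induced by an invertible `3 × 3` matrix over `F`, such that `B` and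
`γ B` are disjoint. -/
theorem result : ∀ p : ℕ, p.Prime → ∀ (F : Type) [Field F], Nat.card F = p ^ 3 →
    ∃ M : GL (Fin 3) F, B p F ∩ projectivity M '' B p F = ∅ := by
  intro p hp F _ hcard
  have : Fact p.Prime := ⟨hp⟩
  have : Finite F := Nat.finite_of_card_ne_zero (by rw [hcard]; exact pow_ne_zero _ hp.ne_zero)
  let _ : Fintype F := Fintype.ofFinite F
  have hF : Fintype.card F = p ^ 3 := by rw [← hcard, Nat.card_eq_fintype_card]
  rcases Nat.lt_or_ge p 5 with h | h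
  · have h2 := hp.two_le
    interval_cases p
    · exact case_two hF
    · obtain ⟨m, hm1, hm2⟩ := exists_m_three hF
      obtain ⟨d, hd0, hd1, hd⟩ := exists_missing_of_m hF m hm1 hm2
      exact of_missing hF d hd0 hd1 hd
    · exact absurd hp (by norm_num)
  · obtain ⟨m, hm1, hm2⟩ := exists_m_of_five_le hF h
    obtain ⟨d, hd0, hd1, hd⟩ := exists_missing_of_m hF m hm1 hm2
    exact of_missing hF d hd0 hd1 hd

end Pool.Agent.Results.MP_837a86_co.DisjointCopy
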